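import Pool.Agent.R973.Chaos.Kappa

/-!
# Site disorder chaos fails for a 3-uniform hypergraph sequence of bounded balls

The definitions (`ball`, `energy`, `gibbs`, `continuousChaos`, `discreteChaos`) are in
`Pool.Agent.R973.Chaos.Defs`.
-/

set_option autoImplicit false

open Pool.Agent.R973.Chaos MeasureTheory ProbabilityTheory
open scoped ENNReal NNReal

namespace Pool.Agent.Results.MP_f93cde_pr.BlockCounterexample

/-- **Site disorder chaos fails for a deterministic sequence of 3-uniform hypergraphs all of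
whose balls have at most four elements** (so the sequence has polynomial and exponential growth).
For the discrete perturbation it fails for every odd disorder which is not almost surely zero,
every `β ∈ (0, ∞]` and every `t ≥ 0`; for the continuous perturbation it fails for every such
disorder with `ρ ≥ 0` on the positive half line (for instance Gaussian couplings), every
`β ∈ (0, ∞]` and every `t ≥ 0`: `𝔼⟨R²⟩_t` is bounded below by a positive constant for `N ≥ 4`. -/
theorem result :
    ∃ E : (N : ℕ) → Finset (Finset (Fin N)),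
      (∀ N, ∀ e ∈ E N, e.card = 3) ∧
      (∀ (N r : ℕ) (v : Fin N), (ball (E N) r v).ncard ≤ 4) ∧
      (∀ ρ : ℝ → ℝ, Measurable ρ → (∀ x, ρ (-x) = -ρ x) → ¬ ρ =ᵐ[volume] 0 →
        ∀ β : ℝ≥0∞, β ≠ 0 → ∀ t : ℝ, 0 ≤ t →
        ∃ c : ℝ, 0 < c ∧ ∀ N : ℕ, 4 ≤ N → c ≤ discreteChaos (E N) ρ β t) ∧
      (∀ ρ : ℝ → ℝ, Measurable ρ → (∀ x, ρ (-x) = -ρ x) → (∀ x, 0 < x → 0 ≤ ρ x) →
        ¬ ρ =ᵐ[volume] 0 → ∀ β : ℝ≥0∞, β ≠ 0 → ∀ t : ℝ, 0 ≤ t →
        ∃ c : ℝ, 0 < c ∧ ∀ N : ℕ, 4 ≤ N → c ≤ continuousChaos (E N) ρ β t) := by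
  refine ⟨blockGraph, fun N e he => uniform_blockGraph he, ncard_ball_le, ?_, ?_⟩
  · intro ρ hρ _ h0 β hβ t ht
    have hfact : Fact (0 ≤ t) := ⟨ht⟩
    have hk := kap_discrete hβ hρ h0 ht
    refine ⟨_, div_pos (pow_pos hk 6) (by norm_num : (0 : ℝ) < 4), ?_⟩
    intro N hN
    have hp : Measurable (Function.uncurry fun (x : ℝ) (u : ℝ × Bool) =>
        if u.2 then x else u.1) := by
      apply Measurable.ite
      · exact (measurable_snd.comp measurable_snd) (measurableSet_singleton true)
      · exact measurable_fst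
      · exact measurable_fst.comp measurable_snd
    exact chaos_pos hN β hρ ((gaussianReal 0 1).prod (bern (Real.exp (-t)))) hp hk
  · intro ρ hρ hodd hpos h0 β hβ t ht
    have hk := kap_continuous hβ hρ hodd hpos h0 ht
    refine ⟨_, div_pos (pow_pos hk 6) (by norm_num : (0 : ℝ) < 4), ?_⟩
    intro N hN
    have hp : Measurable (Function.uncurry fun (x y : ℝ) =>
        Real.exp (-t) * x + Real.sqrt (1 - Real.exp (-2 * t)) * y) := by
      fun_prop
    exact chaos_pos hN β hρ (gaussianReal 0 1) hp hk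

end Pool.Agent.Results.MP_f93cde_pr.BlockCounterexample
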